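import Pool.Agent.helper62.HF.SpecV
import Pool.Agent.helper9.MS.AS1

/-!
# Row hf:DUL (MP_07c750_an, project HALF): duality
-/

set_option autoImplicit false

open scoped MatrixGroups ContDiff Topology UpperHalfPlane ComplexConjugate
open UpperHalfPlane MeasureTheory Filter Set

namespace Pool.Agent.HV

open Pool.Agent.RS Pool.Agent.MS

theorem DUL_per (Γ : Subgroup SL(2, ℝ)) (f : ℍ → ℂ) (g : SL(2, ℝ)) (z : ℍ) :
    (starRingEnd ℂ) (per Γ f g z) = per Γ (fun z => (starRingEnd ℂ) (f z)) g z := by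
  unfold per
  exact AddEquiv.map_finsum (starAddEquiv : ℂ ≃+ ℂ) _

theorem DUL_sy (Γ : Subgroup SL(2, ℝ)) (F : Set ℍ) (f : ℍ → ℂ) (s : SL(2, ℝ) → ℂ) (z : ℍ) :
    (starRingEnd ℂ) (sy Γ F f s z) = sy Γ F (fun z => (starRingEnd ℂ) (f z)) (fun g => (starRingEnd ℂ) (s g)) z := by
  unfold sy
  rw [← integral_conj]
  refine integral_congr_ae (Eventually.of_forall fun g => ?_)
  simp only [map_mul, DUL_per]

theorem DUL_num (X V κ : ℝ) (hX : 0 ≤ X) (hV : 0 ≤ V) (hκ : 0 ≤ κ) (h : X ≤ Real.sqrt V * Real.sqrt (κ * X)) : X ≤ κ * V := by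
  have h1 : X ^ 2 ≤ V * (κ * X) := by
    have h2 := mul_self_le_mul_self hX h
    have h3 : Real.sqrt V * Real.sqrt (κ * X) * (Real.sqrt V * Real.sqrt (κ * X)) = V * (κ * X) := by
      have e1 := Real.mul_self_sqrt hV
      have e2 := Real.mul_self_sqrt (mul_nonneg hκ hX)
      calc _ = (Real.sqrt V * Real.sqrt V) * (Real.sqrt (κ * X) * Real.sqrt (κ * X)) := by ring
        _ = _ := by rw [e1, e2]
    rw [h3] at h2
    nlinarith
  rcases hX.eq_or_lt with h0 | h0
  · rw [← h0]; positivity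
  · have h3 : X * X ≤ X * (κ * V) := by nlinarith
    exact le_of_mul_le_mul_left h3 h0

theorem DUL_proof (hGDU : GDU_stmt) (hGYN : GYN_stmt) (hGWB : GWB_stmt) (hGFD : GFD_stmt) (hGBD : GBD_stmt) : DUL_stmt := by
  intro Γ F e e' B D κ hΓ hF he hes he' hes' hB hD hDi hκ hyp v hv hvb hvB
  obtain ⟨⟨hdm, -, hdf, -⟩, -⟩ := hGFD Γ F hΓ hF
  have hfin : IsFiniteMeasure (mG.restrict (dG F)) := ⟨by rw [Measure.restrict_apply_univ]; exact hdf⟩
  have cconj : Continuous (fun z : ℂ => (starRingEnd ℂ) z) := Complex.continuous_conj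
  have heb : Continuous (fun z : ℍ => (starRingEnd ℂ) (e z)) := cconj.comp he
  have hebs : HasCompactSupport (fun z : ℍ => (starRingEnd ℂ) (e z)) := hes.comp_left (g := fun z : ℂ => (starRingEnd ℂ) z) (map_zero _)
  -- the function `u`
  have hdu := hGDU Γ F (fun z => (starRingEnd ℂ) (e z)) ((∫ z : ℍ, ‖(starRingEnd ℂ) (e z)‖) ^ 2) hΓ hF heb hebs (sq_nonneg _)
    (fun u hu => hGYN Γ F _ u hΓ hF heb hebs hu) v v hv hv hvb hvb
  obtain ⟨huI, hud, -, -⟩ := hdu
  set u := sy Γ F (fun z => (starRingEnd ℂ) (e z)) v with hu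
  have haI : InvG Γ (Wf e' u) := (hGWB Γ _ _ hΓ he' hes' huI).1
  set a := Wf e' u with ha
  obtain ⟨m, hm⟩ := (hGBD Γ ℂ _ hΓ haI).1
  have hm0 : 0 ≤ m := le_trans (norm_nonneg _) (hm 1)
  have ham : Measurable a := haI.1.measurable
  -- the function `s0`
  set s0 : SL(2, ℝ) → ℂ := D.indicator (fun g => (starRingEnd ℂ) (a g)) with hs0
  have hs0m : Measurable s0 := (cconj.measurable.comp ham).indicator hD
  have hs0n : ∀ g, ‖s0 g‖ = D.indicator (fun g => ‖a g‖) g := by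
    intro g
    by_cases hg : g ∈ D
    · simp [hs0, hg]
    · simp [hs0, hg]
  have hs0b : ∃ m : ℝ, ∀ g, ‖s0 g‖ ≤ m := by
    refine ⟨m, fun g => ?_⟩
    rw [hs0n]
    by_cases hg : g ∈ D
    · rw [indicator_of_mem hg]; exact hm g
    · rw [indicator_of_notMem hg]; exact hm0
  have hdw := hGDU Γ F e' ((∫ z : ℍ, ‖e' z‖) ^ 2) hΓ hF he' hes' (sq_nonneg _)
    (fun u hu => hGYN Γ F _ u hΓ hF he' hes' hu) s0 s0 hs0m hs0m hs0b hs0b
  obtain ⟨hwI, hwd, -, -⟩ := hdw
  set w := sy Γ F e' s0 with hw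
  set X : ℝ := ∫ h in dG F ∩ D, ‖a h‖ ^ 2 ∂mG with hX
  have hX0 : 0 ≤ X := integral_nonneg fun x => sq_nonneg _
  have hXD : X = ∫ h in dG F, (D.indicator (fun g => ‖a g‖) h) ^ 2 ∂mG := by
    rw [hX, inter_comm, ← Measure.restrict_restrict hD, ← integral_indicator hD]
    refine integral_congr_ae (Eventually.of_forall fun g => ?_)
    by_cases hg : g ∈ D
    · simp [hg]
    · simp [hg]
  -- `∫ s0 a = X`
  have e1 : ∫ g in dG F, s0 g * Wf e' u g ∂mG = ((X : ℝ) : ℂ) := by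
    rw [hXD, ← integral_complex_ofReal]
    refine integral_congr_ae (Eventually.of_forall fun g => ?_)
    by_cases hg : g ∈ D
    · simp only [hs0, indicator_of_mem hg, ← ha]
      rw [mul_comm, Complex.mul_conj, Complex.normSq_eq_norm_sq]
    · simp only [hs0, indicator_of_notMem hg]
      simp
  have e2 : ∫ g in dG F, v g * Wf (fun z => (starRingEnd ℂ) (e z)) w g ∂mG = ((X : ℝ) : ℂ) := by
    rw [← hud w hwI, ← e1, ← hwd u huI]
    refine integral_congr_ae (Eventually.of_forall fun g => ?_)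
    exact mul_comm _ _
  -- the conjugate of `w`
  have hwb : InvC Γ (fun z => (starRingEnd ℂ) (w z)) := by
    refine ⟨cconj.comp hwI.1, fun γ z => ?_⟩
    show (starRingEnd ℂ) (w (γ • z)) = (starRingEnd ℂ) (w z)
    rw [hwI.2]
  have e3 : ∀ g, Wf (fun z => (starRingEnd ℂ) (e z)) w g = (starRingEnd ℂ) (Wf e (fun z => (starRingEnd ℂ) (w z)) g) := by
    intro g
    rw [(hGWB Γ e _ hΓ he hes hwb).2.2 g]
    simp only [Complex.conj_conj]
  have e4 : (fun z => (starRingEnd ℂ) (w z)) = sy Γ F (fun z => (starRingEnd ℂ) (e' z)) (fun g => (starRingEnd ℂ) (s0 g)) := by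
    funext z
    exact DUL_sy Γ F e' s0 z
  have hypw := hyp (fun g => (starRingEnd ℂ) (s0 g)) (cconj.measurable.comp hs0m)
    (by obtain ⟨m, hm⟩ := hs0b; exact ⟨m, fun g => by rw [RCLike.norm_conj]; exact hm g⟩)
    (by
      intro γ g
      have h1 : s0 ((γ : SL(2, ℝ)) * g) = s0 g := by
        by_cases hg : g ∈ D
        · have hg' : (γ : SL(2, ℝ)) * g ∈ D := (hDi γ g).2 hg
          simp only [hs0, indicator_of_mem hg, indicator_of_mem hg']
          rw [haI.2]
        · have hg' : (γ : SL(2, ℝ)) * g ∉ D := fun h => hg ((hDi γ g).1 h)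
          simp only [hs0, indicator_of_notMem hg, indicator_of_notMem hg']
      show (starRingEnd ℂ) (s0 ((γ : SL(2, ℝ)) * g)) = (starRingEnd ℂ) (s0 g)
      rw [h1])
    (by
      intro g hg
      by_contra hgD
      exact hg (by simp only [hs0, indicator_of_notMem hgD, map_zero]))
  rw [← e4] at hypw
  set b := Wf e (fun z => (starRingEnd ℂ) (w z)) with hb
  have hbI : InvG Γ b := (hGWB Γ _ _ hΓ he hes hwb).1
  obtain ⟨mb, hmb⟩ := (hGBD Γ ℂ _ hΓ hbI).1
  have hmb0 : 0 ≤ mb := le_trans (norm_nonneg _) (hmb 1)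
  have hbm : Measurable b := hbI.1.measurable
  have e5 : iR F (fun g => ‖(starRingEnd ℂ) (s0 g)‖ ^ 2) = X := by
    unfold iR
    rw [hXD]
    refine integral_congr_ae (Eventually.of_forall fun g => ?_)
    show ‖(starRingEnd ℂ) (s0 g)‖ ^ 2 = _
    rw [RCLike.norm_conj, hs0n]
  rw [e5] at hypw
  -- Cauchy-Schwarz
  have e6 : ∫ g in dG F, (B.indicator (fun g => ‖b g‖) g) ^ 2 ∂mG = ∫ g in dG F ∩ B, ‖b g‖ ^ 2 ∂mG := by
    rw [inter_comm, ← Measure.restrict_restrict hB, ← integral_indicator hB]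
    refine integral_congr_ae (Eventually.of_forall fun g => ?_)
    by_cases hg : g ∈ B
    · simp [hg]
    · simp [hg]
  have hcs := AS1_cs (mG.restrict (dG F)) (fun g => ‖v g‖) (B.indicator (fun g => ‖b g‖)) hv.norm (hbm.norm.indicator hB)
    (by obtain ⟨m, hm⟩ := hvb; exact ⟨m, fun g => by rw [abs_of_nonneg (norm_nonneg _)]; exact hm g⟩)
    (by
      refine ⟨mb, fun g => ?_⟩
      by_cases hg : g ∈ B
      · rw [indicator_of_mem hg, abs_of_nonneg (norm_nonneg _)]; exact hmb g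
      · rw [indicator_of_notMem hg, abs_zero]; exact hmb0)
  rw [e6] at hcs
  have e7 : X ≤ ∫ g in dG F, ‖v g‖ * B.indicator (fun g => ‖b g‖) g ∂mG := by
    have h1 : X = ‖((X : ℝ) : ℂ)‖ := by rw [Complex.norm_real, Real.norm_eq_abs, abs_of_nonneg hX0]
    rw [h1, ← e2]
    refine (norm_integral_le_integral_norm _).trans (le_of_eq ?_)
    refine integral_congr_ae (Eventually.of_forall fun g => ?_)
    show ‖v g * Wf (fun z => (starRingEnd ℂ) (e z)) w g‖ = ‖v g‖ * B.indicator (fun g => ‖b g‖) g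
    rw [e3 g, norm_mul, RCLike.norm_conj]
    by_cases hg : g ∈ B
    · rw [indicator_of_mem hg]
    · have h0 : v g = 0 := by
        by_contra h; exact hg (hvB g h)
      rw [h0, norm_zero, zero_mul, zero_mul]
  refine DUL_num X _ κ hX0 (integral_nonneg fun x => sq_nonneg _) hκ (e7.trans (hcs.trans ?_))
  exact mul_le_mul_of_nonneg_left (Real.sqrt_le_sqrt hypw) (Real.sqrt_nonneg _)

end Pool.Agent.HV
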