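import Pool.Agent.helper1.HF.SpecW
import Pool.Agent.helper6.EN.XCY

/-!
# Row hf:CYS (MP_07c750_an): the box around every lift of every point of a cylinder (after helper68/MS/CYB.lean)
-/

open scoped MatrixGroups Topology UpperHalfPlane
open UpperHalfPlane MeasureTheory Filter Set

set_option autoImplicit false

namespace Pool.Agent.HF

open Pool.Agent.MS (bq)
open Pool.Agent.EN (XG MG mkX mkM fl pr Hn)

theorem CYS_iter (h1 : EN.XFL_stmt) (Γ : Subgroup SL(2, ℝ)) (i : ℕ) (g : SL(2, ℝ)) :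
    (fl Γ 1)^[i] (mkX Γ g) = mkX Γ (g * RS.aM i) := by
  obtain ⟨-, -, -, -, hsX, -, -, -, hflX, -, hmk, -⟩ := h1 Γ
  induction i with
  | zero =>
    rw [Function.iterate_zero_apply, Nat.cast_zero, EN.XCY_aM_zero, mul_one]
  | succ i ih =>
    rw [Function.iterate_succ_apply', ih, hflX, mul_assoc, ← EN.XCY_aM_add]
    push_cast
    rfl

theorem CYS_proof (h1 : EN.XFL_stmt) (h2 : EN.XLF_stmt) : CYS_stmt := by
  intro Γ a hΓ ha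
  have hiter := CYS_iter h1 Γ
  obtain ⟨-, -, -, -, hsX, -, -, -, hflX, -, hmk, -⟩ := h1 Γ
  obtain ⟨δ₁, hδ₁0, hδ₁1, hδ₁⟩ := h2 Γ hΓ
  obtain ⟨δ, hδdef⟩ : ∃ δ, δ = min δ₁ (a / 3) := ⟨_, rfl⟩
  have hδ0 : 0 < δ := by rw [hδdef]; exact lt_min hδ₁0 (by linarith)
  have hδδ : δ ≤ δ₁ := by rw [hδdef]; exact min_le_left _ _
  have hδa : δ ≤ a / 3 := by rw [hδdef]; exact min_le_right _ _
  have hδ1 : δ ≤ 1 := hδδ.trans hδ₁1
  refine ⟨δ / 4, by linarith, fun p P _ hcell n g₀ hn => ?_⟩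
  intro x hx
  obtain ⟨g, rfl⟩ := hsX x
  have hg' : ∀ i : Fin n, P ((fl Γ 1)^[i] (mkX Γ g)) = P ((fl Γ 1)^[i] (mkX Γ g₀)) := hx
  have hγ : ∀ i : ℕ, ∃ γ : Γ, i < n → EN.nr δ ((g₀ * RS.aM i)⁻¹ * (γ : SL(2, ℝ)) * (g * RS.aM i)) := by
    intro i
    by_cases hi : i < n
    · have e2 := hg' ⟨i, hi⟩
      simp only [] at e2
      rw [hiter, hiter] at e2
      obtain ⟨x, hx⟩ := hcell (P (mkX Γ (g₀ * RS.aM i))) ⟨_, rfl⟩
      obtain ⟨k₁, u₁, hu₁, hk₁, hk₁'⟩ := hx (show mkX Γ (g₀ * RS.aM i) ∈ P ⁻¹' {P (mkX Γ (g₀ * RS.aM i))} from rfl)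
      obtain ⟨k₂, u₂, hu₂, hk₂, hk₂'⟩ := hx (show mkX Γ (g * RS.aM i) ∈ P ⁻¹' {P (mkX Γ (g₀ * RS.aM i))} from e2)
      obtain ⟨a, ha⟩ := (hmk _ _).1 (hk₁.symm.trans hk₂)
      obtain ⟨b, hb⟩ := (hmk _ _).1 hk₁'
      obtain ⟨c, hc⟩ := (hmk _ _).1 hk₂'
      refine ⟨b⁻¹ * a⁻¹ * c, fun _ => ?_⟩
      have e3 : (g₀ * RS.aM i)⁻¹ * ((b⁻¹ * a⁻¹ * c : Γ) : SL(2, ℝ)) * (g * RS.aM i) = u₁⁻¹ * u₂ := by
        have e4 : (c : SL(2, ℝ)) * (g * RS.aM i) = a * k₁ * u₂ := by rw [ha]; exact hc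
        have e5 : g₀ * RS.aM i = (b : SL(2, ℝ))⁻¹ * (k₁ * u₁) := by
          rw [← hb]
          exact (inv_mul_cancel_left _ _).symm
        push_cast
        rw [mul_assoc _ _ (g * RS.aM i), mul_assoc _ _ (g * RS.aM i), e4, e5]
        group
      rw [e3]
      exact EN.XCY_nr hδ0 hδ1 hu₁ hu₂
    · exact ⟨1, fun h => absurd h hi⟩
  choose γ hγ using hγ
  have hγ0 := hδ₁ g₀ g n γ (fun i hi i' j' => (hγ i hi i' j').trans_le hδδ)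
  have hm : ∀ i j : Fin 2, |(g₀⁻¹ * (γ 0 : SL(2, ℝ)) * g).1 i j - (1 : Matrix (Fin 2) (Fin 2) ℝ) i j| < δ := by
    intro i j
    have e1 := hγ 0 (by omega) i j
    rwa [Nat.cast_zero, EN.XCY_aM_zero, mul_one, mul_one] at e1
  refine ⟨g₀⁻¹ * (γ 0 : SL(2, ℝ)) * g, ⟨?_, ?_, ?_, ?_⟩, ?_⟩
  · have e1 := hm 0 0
    rw [Matrix.one_apply_eq] at e1
    linarith
  · have e1 := hm 1 1
    rw [Matrix.one_apply_eq] at e1
    linarith
  · have e1 := hm 0 1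
    rw [Matrix.one_apply_ne (show (0 : Fin 2) ≠ 1 by decide), sub_zero] at e1
    linarith
  · have e1 := hγ (n - 1) (by omega) 1 0
    rw [hγ0 (n - 1) (by omega)] at e1
    have e2 : (g₀ * RS.aM ((n - 1 : ℕ) : ℝ))⁻¹ * (γ 0 : SL(2, ℝ)) * (g * RS.aM ((n - 1 : ℕ) : ℝ)) =
        (RS.aM ((n - 1 : ℕ) : ℝ))⁻¹ * (g₀⁻¹ * (γ 0 : SL(2, ℝ)) * g) * RS.aM ((n - 1 : ℕ) : ℝ) := by
      group
    rw [e2, EN.XCY_conj, Matrix.one_apply_ne (show (1 : Fin 2) ≠ 0 by decide), sub_zero, abs_mul,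
      abs_of_pos (Real.exp_pos _)] at e1
    have e3 : Real.exp ((n - 1 : ℕ) : ℝ) * Real.exp (1 - (n : ℝ)) = 1 := by
      rw [← Real.exp_add, Nat.cast_sub hn]
      simp
    have e4 : Real.exp (1 - (n : ℝ)) = Real.exp 1 * Real.exp (-(n : ℝ)) := by
      rw [← Real.exp_add]
      congr 1
    have e5 := Real.exp_pos (1 - (n : ℝ))
    have e6 := mul_le_mul_of_nonneg_right e1.le e5.le
    have e7 : Real.exp ((n - 1 : ℕ) : ℝ) * |(g₀⁻¹ * (γ 0 : SL(2, ℝ)) * g).1 1 0| * Real.exp (1 - (n : ℝ)) =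
        |(g₀⁻¹ * (γ 0 : SL(2, ℝ)) * g).1 1 0| := by
      rw [mul_right_comm, e3, one_mul]
    rw [e7] at e6
    refine e6.trans ?_
    rw [e4, ← mul_assoc]
    refine mul_le_mul_of_nonneg_right ?_ (Real.exp_pos _).le
    have e8 : Real.exp 1 < 3 := Real.exp_one_lt_d9.trans (by norm_num)
    have e9 : δ * Real.exp 1 ≤ a / 3 * 3 := mul_le_mul hδa e8.le (Real.exp_pos _).le (by linarith)
    linarith
  · refine (hmk _ _).2 ⟨γ 0, ?_⟩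
    group

end Pool.Agent.HF
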