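import Pool.Agent.helper1.HF.SpecW

/-!
# Row hf:MRK (MP_07c750_an): the number of the bad times (Markov)
-/

open MeasureTheory Filter Set

set_option autoImplicit false

namespace Pool.Agent.HF

theorem MRK_meas {X : Type} [MeasurableSpace X] {T : X → X} (hT : Measurable T) {B : Set X} (hB : MeasurableSet B) (n : ℕ) :
    (open Classical in Measurable (fun x => (((Finset.range n).filter (fun i => T^[i] x ∈ B)).card : ℝ))) := by
  classical
  have h1 : (fun x => (((Finset.range n).filter (fun i => T^[i] x ∈ B)).card : ℝ)) =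
      fun x => ∑ i ∈ Finset.range n, (T^[i] ⁻¹' B).indicator (fun _ => (1 : ℝ)) x := by
    funext x
    rw [Finset.card_filter]
    push_cast
    refine Finset.sum_congr rfl fun i _ => ?_
    rw [Set.indicator_apply]
    rfl
  rw [h1]
  exact Finset.measurable_fun_sum _ fun i _ => (measurable_const.indicator (hT.iterate i hB))

theorem MRK_proof : MRK_stmt := by
  classical
  intro X _ μ T B η n hμ hT hB hη
  rcases Nat.eq_zero_or_pos n with hn | hn
  · subst hn
    simp only [Finset.range_zero, Finset.filter_empty, Finset.card_empty, Nat.cast_zero, mul_zero, lt_self_iff_false,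
      Set.ofPred_false, measureReal_empty]
    positivity
  have hn0 : (0 : ℝ) < n := by exact_mod_cast hn
  have hcard : ∀ x, (((Finset.range n).filter (fun i => T^[i] x ∈ B)).card : ℝ) =
      ∑ i ∈ Finset.range n, (T^[i] ⁻¹' B).indicator (fun _ => (1 : ℝ)) x := by
    intro x
    rw [Finset.card_filter]
    push_cast
    refine Finset.sum_congr rfl fun i _ => ?_
    rw [Set.indicator_apply]
    rfl
  have hint : ∀ i ∈ Finset.range n, Integrable ((T^[i] ⁻¹' B).indicator (fun _ => (1 : ℝ))) μ := fun i _ =>
    (integrable_const (1 : ℝ)).indicator ((hT.iterate i).measurable hB)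
  have hI : ∫ x, (((Finset.range n).filter (fun i => T^[i] x ∈ B)).card : ℝ) ∂μ = n * μ.real B := by
    simp_rw [hcard]
    rw [integral_finsetSum _ hint]
    have h1 : ∀ i ∈ Finset.range n, ∫ x, (T^[i] ⁻¹' B).indicator (fun _ => (1 : ℝ)) x ∂μ = μ.real B := by
      intro i _
      rw [integral_indicator ((hT.iterate i).measurable hB), setIntegral_const, smul_eq_mul, mul_one]
      unfold Measure.real
      rw [(hT.iterate i).measure_preimage hB.nullMeasurableSet]
    rw [Finset.sum_congr rfl h1, Finset.sum_const, Finset.card_range, nsmul_eq_mul]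
  have hInt : Integrable (fun x => (((Finset.range n).filter (fun i => T^[i] x ∈ B)).card : ℝ)) μ := by
    simp_rw [hcard]
    exact integrable_finsetSum _ hint
  have h2 := mul_meas_ge_le_integral_of_nonneg (μ := μ) (Filter.Eventually.of_forall fun x =>
    (Nat.cast_nonneg (((Finset.range n).filter (fun i => T^[i] x ∈ B)).card) : (0 : ℝ) ≤ _)) hInt (η * n)
  rw [hI] at h2
  have h3 : μ.real {x | η * n < (((Finset.range n).filter (fun i => T^[i] x ∈ B)).card : ℝ)} ≤
      μ.real {x | η * n ≤ (((Finset.range n).filter (fun i => T^[i] x ∈ B)).card : ℝ)} :=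
    measureReal_mono (by
      intro x hx
      have hx' : η * n < (((Finset.range n).filter (fun i => T^[i] x ∈ B)).card : ℝ) := hx
      exact hx'.le)
  rw [le_div_iff₀ hη]
  have h4 : η * n * μ.real {x | η * n ≤ (((Finset.range n).filter (fun i => T^[i] x ∈ B)).card : ℝ)} ≤ n * μ.real B := h2
  have h5 : 0 ≤ η * n := by positivity
  have h6 := mul_le_mul_of_nonneg_left h3 h5
  have h7 : n * (μ.real {x | η * n < (((Finset.range n).filter (fun i => T^[i] x ∈ B)).card : ℝ)} * η) ≤ n * μ.real B := by
    calc n * (μ.real {x | η * n < (((Finset.range n).filter (fun i => T^[i] x ∈ B)).card : ℝ)} * η)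
        = η * n * μ.real {x | η * n < (((Finset.range n).filter (fun i => T^[i] x ∈ B)).card : ℝ)} := by ring
      _ ≤ _ := h6.trans h4
  exact le_of_mul_le_mul_left h7 hn0

end Pool.Agent.HF
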