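import Pool.Agent.helper1.HF.EZ3
import Pool.Agent.helper84.HF.Defs

/-!
# Row hf:EZJ (MP_07c750_an): few boxes whose centres are good at most times, for an arbitrary set of low entropy
-/

set_option autoImplicit false

open scoped MatrixGroups ContDiff Topology UpperHalfPlane ComplexConjugate
open UpperHalfPlane MeasureTheory Filter Set

namespace Pool.Agent.HF

open Pool.Agent.RS
open Pool.Agent.MS (bq EZ2_meas EZ2_sys EZ2_cylm EZ2_heavy)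
open Pool.Agent.EN (XG MG mkX mkM fl pr)

theorem EZJ_proof (hLOC : LL.LOC_stmt) (hSML : MS.SML_stmt) (hCYS : CYS_stmt) (hMRK : MRK_stmt) (hPAR : EN.PAR_stmt)
    (hXFL : EN.XFL_stmt) (hXTX : EN.XTX_stmt) (hXNB : EN.XNB_stmt) : EZJ_stmt := by
  classical
  intro Γ μ Y hΓ hμ hinv hY a ha η δ m0 hη hδ
  obtain ⟨hX1, hX2, hX3⟩ := hXTX Γ hΓ
  obtain ⟨δ₁, hδ₁, hcys⟩ := hCYS Γ a hΓ ha
  obtain ⟨p, P, hP, hcell, -⟩ := hPAR (XG Γ) μ (fun x => EN.Ux Γ δ₁ x) inferInstance (fun x => hXNB Γ δ₁ x hδ₁)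
  have hcy := hcys p P hP hcell
  have hsys := EZ2_sys hXFL Γ μ hinv
  have hiter := CYS_iter hXFL Γ
  obtain ⟨-, -, -, -, hsX, -, -, -, hflX, -, hmk, -⟩ := hXFL Γ
  have hTm := hsys.mp.measurable
  -- the first level
  obtain ⟨ε, hε0, hε1, hε2⟩ : ∃ ε : ℝ, 0 < ε ∧ ε ≤ 1 / 64 ∧ 3 * ε / (5 / 64) ≤ η * δ / 4 := by
    refine ⟨min (1 / 64) (η * δ * (5 / 64) / 12), ?_, min_le_left _ _, ?_⟩
    · exact lt_min (by norm_num) (by positivity)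
    · have := min_le_right (1 / 64 : ℝ) (η * δ * (5 / 64) / 12)
      rw [div_le_iff₀ (by norm_num)]
      linarith
  obtain ⟨J, L, hJm, hJT, hJL, hJH, hcyl⟩ := hLOC (XG Γ) μ (fl Γ 1) (fl Γ (-1)) p P ε hμ hsys hP hε0
  have hz := hY p P J ε hP hJm hε0 (by linarith) hcyl
  have hev := hSML (XG Γ) μ (fl Γ 1) (fl Γ (-1)) p P J L ε hμ hsys hP hJm hJL hε0 hJH hcyl (5 / 64) (by norm_num)
  obtain ⟨k1, hk1⟩ := Filter.eventually_atTop.1 hev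
  obtain ⟨k2, hk2⟩ : ∃ k2, k2 = k1 + m0 := ⟨_, rfl⟩
  obtain ⟨m, hm⟩ : ∃ m, m = 2 * k2 + 1 := ⟨_, rfl⟩
  obtain ⟨hBm, hBq⟩ := EZ3_light μ hsys hP hJm hJT k2 (5 / 64) (1 / 2 + 3 * ε) (5 / 8) (3 * ε / (5 / 64)) (by linarith)
    (hk1 k2 (by omega)) (by positivity)
  rw [← hm] at hBm hBq
  obtain ⟨B, hBdef⟩ : ∃ B : Set (XG Γ), B = {x | J x ≤ 1 / 2 + 3 * ε ∧ LL.cyl μ (fl Γ 1) P m x < Real.exp (-((m : ℝ) * (5 / 8)))} := ⟨_, rfl⟩
  rw [← hBdef] at hBm hBq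
  have hBq' : μ.real B / η ≤ δ / 4 := by
    rw [div_le_iff₀ hη]
    have := hBq.trans hε2
    linarith
  obtain ⟨Wm, hWm1, hWm2⟩ := EZ2_heavy μ hTm hP m ((m : ℝ) * (5 / 8))
  -- centres of the heavy cylinders of length `m`
  have hcm : ∀ w : Fin m → Fin p, ∃ z : SL(2, ℝ), ∀ x, (∀ i : Fin m, P ((fl Γ 1)^[i] x) = w i) →
      ∃ h : SL(2, ℝ), bq a a (a * Real.exp (-m)) h ∧ x = mkX Γ (z * h) := by
    intro w
    by_cases hw : ∃ x, ∀ i : Fin m, P ((fl Γ 1)^[i] x) = w i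
    · obtain ⟨x₀, hx₀⟩ := hw
      obtain ⟨g₀, rfl⟩ := hsX x₀
      refine ⟨g₀, fun x hx => ?_⟩
      have h1 := hcy m g₀ (by omega)
      have h2 : x ∈ {x | ∀ i : Fin m, P ((fl Γ 1)^[i] x) = P ((fl Γ 1)^[i] (mkX Γ g₀))} := by
        intro i
        rw [hx i, hx₀ i]
      exact h1 h2
    · exact ⟨1, fun x hx => absurd ⟨x, hx⟩ hw⟩
  choose cm hcm using hcm
  refine ⟨m, Wm.image cm, by omega, ?_, ?_⟩
  · have h1 : ((Wm.image cm).card : ℝ) ≤ (Wm.card : ℝ) := by exact_mod_cast Finset.card_image_le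
    refine h1.trans (hWm1.trans (le_of_eq ?_))
    rw [mul_comm]
  intro κ hκ0
  -- the second level
  obtain ⟨κ', hκ'd⟩ : ∃ κ', κ' = κ / 8 := ⟨_, rfl⟩
  have hκ' : 0 < κ' := by rw [hκ'd]; linarith
  obtain ⟨ε', hε'0, hε'1, hε'2, hε'3⟩ : ∃ ε' : ℝ, 0 < ε' ∧ ε' ≤ 1 / 8 ∧ 3 * ε' ≤ κ / 8 ∧ 3 * ε' / κ' ≤ δ / 4 := by
    refine ⟨min (1 / 8) (min (κ / 24) (δ * κ' / 12)), ?_, ?_, ?_, ?_⟩
    · exact lt_min (by norm_num) (lt_min (by linarith) (by positivity))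
    · exact min_le_left _ _
    · have := (min_le_right (1 / 8) (min (κ / 24) (δ * κ' / 12))).trans (min_le_left _ _)
      linarith
    · have := (min_le_right (1 / 8) (min (κ / 24) (δ * κ' / 12))).trans (min_le_right _ _)
      rw [div_le_iff₀ hκ']
      linarith
  obtain ⟨J', L', hJm', hJT', hJL', hJH', hcyl'⟩ := hLOC (XG Γ) μ (fl Γ 1) (fl Γ (-1)) p P ε' hμ hsys hP hε'0
  have hz' := hY p P J' ε' hP hJm' hε'0 hε'1 hcyl'
  have hev' := hSML (XG Γ) μ (fl Γ 1) (fl Γ (-1)) p P J' L' ε' hμ hsys hP hJm' hJL' hε'0 hJH' hcyl' κ' hκ'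
  obtain ⟨k0, hk0⟩ := Filter.eventually_atTop.1 hev'
  refine ⟨max (2 * k0) (⌈2 / κ⌉₊ + 1), fun n hn => ?_⟩
  have hn1 : 2 * k0 ≤ n := (le_max_left _ _).trans hn
  have hn2 : ⌈2 / κ⌉₊ + 1 ≤ n := (le_max_right _ _).trans hn
  obtain ⟨k, hk⟩ : ∃ k, k = n / 2 := ⟨_, rfl⟩
  have hk1' : k0 ≤ k := by omega
  obtain ⟨N, hN⟩ : ∃ N, N = 2 * k + 1 := ⟨_, rfl⟩
  have hN1 : n ≤ N := by omega
  have hN2 : N ≤ n + 1 := by omega
  have hN1' : (n : ℝ) ≤ (N : ℝ) := by exact_mod_cast hN1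
  have hN2' : (N : ℝ) ≤ (n : ℝ) + 1 := by exact_mod_cast hN2
  have hnκ : 2 / κ + 1 ≤ (n : ℝ) := by
    have h1 : (((⌈2 / κ⌉₊ + 1 : ℕ)) : ℝ) ≤ (n : ℝ) := by exact_mod_cast hn2
    have h2 := Nat.le_ceil (2 / κ)
    push_cast at h1
    linarith
  obtain ⟨hCm, hCq⟩ := EZ3_light μ hsys hP hJm' hJT' k κ' (1 / 2 + 3 * ε') (1 / 2 + κ / 4) (3 * ε' / κ') (by rw [hκ'd]; linarith)
    (hk0 k hk1') (by positivity)
  rw [← hN] at hCm hCq
  obtain ⟨W, hW1, hW2⟩ := EZ2_heavy μ hTm hP N ((N : ℝ) * (1 / 2 + κ / 4))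
  -- the good set
  obtain ⟨G, hG⟩ : ∃ G : Set (XG Γ), G = {x | J x ≤ 1 / 2 + 3 * ε ∧ Real.exp (-((N : ℝ) * (1 / 2 + κ / 4))) ≤ LL.cyl μ (fl Γ 1) P N x ∧
      (((Finset.range n).filter (fun i => (fl Γ 1)^[i] x ∈ B)).card : ℝ) ≤ η * n} := ⟨_, rfl⟩
  have hGm : μ.real (Y) - δ ≤ μ.real G := by
    have hsub : Y ⊆ G ∪ (({x | 1 / 2 + 3 * ε < J x} ∩ Y) ∪ ({x | 1 / 2 + 3 * ε' < J' x} ∩ Y) ∪
        {x | J' x ≤ 1 / 2 + 3 * ε' ∧ LL.cyl μ (fl Γ 1) P N x < Real.exp (-((N : ℝ) * (1 / 2 + κ / 4)))} ∪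
        {x | η * n < (((Finset.range n).filter (fun i => (fl Γ 1)^[i] x ∈ B)).card : ℝ)}) := by
      intro x hx
      by_cases h1 : J x ≤ 1 / 2 + 3 * ε
      · by_cases h2 : J' x ≤ 1 / 2 + 3 * ε'
        · by_cases h3 : LL.cyl μ (fl Γ 1) P N x < Real.exp (-((N : ℝ) * (1 / 2 + κ / 4)))
          · exact Or.inr (Or.inl (Or.inr ⟨h2, h3⟩))
          · by_cases h4 : η * n < (((Finset.range n).filter (fun i => (fl Γ 1)^[i] x ∈ B)).card : ℝ)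
            · exact Or.inr (Or.inr h4)
            · left
              rw [hG]
              exact ⟨h1, not_lt.1 h3, not_lt.1 h4⟩
        · exact Or.inr (Or.inl (Or.inl (Or.inr ⟨not_le.1 h2, hx⟩)))
      · exact Or.inr (Or.inl (Or.inl (Or.inl ⟨not_le.1 h1, hx⟩)))
    have hmk1 := hMRK (XG Γ) μ (fl Γ 1) B η n hμ hsys.mp hBm hη
    have hzr : μ.real ({x | 1 / 2 + 3 * ε < J x} ∩ Y) = 0 := by
      unfold Measure.real
      rw [show (1 / 2 + 3 * ε : ℝ) = 1 / 2 + 3 * ε from rfl, hz]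
      rfl
    have hzr' : μ.real ({x | 1 / 2 + 3 * ε' < J' x} ∩ Y) = 0 := by
      unfold Measure.real
      rw [hz']
      rfl
    have h5 := measureReal_mono (μ := μ) hsub
    have h6 := h5.trans (measureReal_union_le _ _)
    have h7 := measureReal_union_le (μ := μ) (({x | 1 / 2 + 3 * ε < J x} ∩ Y) ∪ ({x | 1 / 2 + 3 * ε' < J' x} ∩ Y) ∪
        {x | J' x ≤ 1 / 2 + 3 * ε' ∧ LL.cyl μ (fl Γ 1) P N x < Real.exp (-((N : ℝ) * (1 / 2 + κ / 4)))})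
        {x | η * n < (((Finset.range n).filter (fun i => (fl Γ 1)^[i] x ∈ B)).card : ℝ)}
    have h8 := measureReal_union_le (μ := μ) (({x | 1 / 2 + 3 * ε < J x} ∩ Y) ∪ ({x | 1 / 2 + 3 * ε' < J' x} ∩ Y))
        {x | J' x ≤ 1 / 2 + 3 * ε' ∧ LL.cyl μ (fl Γ 1) P N x < Real.exp (-((N : ℝ) * (1 / 2 + κ / 4)))}
    have h9 := measureReal_union_le (μ := μ) ({x | 1 / 2 + 3 * ε < J x} ∩ Y) ({x | 1 / 2 + 3 * ε' < J' x} ∩ Y)
    linarith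
  -- the centres
  have hcw : ∀ w : Fin N → Fin p, ∃ y : SL(2, ℝ), (∃ x ∈ G, ∀ i : Fin N, P ((fl Γ 1)^[i] x) = w i) →
      mkX Γ y ∈ G ∧ ∀ i : Fin N, P ((fl Γ 1)^[i] (mkX Γ y)) = w i := by
    intro w
    by_cases hw : ∃ x ∈ G, ∀ i : Fin N, P ((fl Γ 1)^[i] x) = w i
    · obtain ⟨x₀, hx₀G, hx₀⟩ := hw
      obtain ⟨g₀, rfl⟩ := hsX x₀
      exact ⟨g₀, fun _ => ⟨hx₀G, hx₀⟩⟩
    · exact ⟨1, fun h => absurd h hw⟩
  choose c hc using hcw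
  obtain ⟨V, hV⟩ : ∃ V : Finset (Fin N → Fin p), V = W.filter (fun w => ∃ x ∈ G, ∀ i : Fin N, P ((fl Γ 1)^[i] x) = w i) := ⟨_, rfl⟩
  refine ⟨V.image c, ?_, ?_, ?_⟩
  · have h1 : ((V.image c).card : ℝ) ≤ (W.card : ℝ) := by
      have h2 : (V.image c).card ≤ V.card := Finset.card_image_le
      have h3 : V.card ≤ W.card := by rw [hV]; exact Finset.card_filter_le _ _
      exact_mod_cast h2.trans h3
    refine h1.trans (hW1.trans (Real.exp_le_exp.2 ?_))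
    have h2 : (N : ℝ) * (1 / 2 + κ / 4) ≤ ((n : ℝ) + 1) * (1 / 2 + κ / 4) := mul_le_mul_of_nonneg_right hN2' (by linarith)
    have h3 : 2 + κ ≤ κ * n := by
      have h4 := mul_le_mul_of_nonneg_left hnκ hκ0.le
      have h5 : κ * (2 / κ + 1) = 2 + κ := by field_simp
      linarith
    nlinarith
  · refine hGm.trans (measureReal_mono ?_)
    intro x hx
    obtain ⟨w, hw⟩ : ∃ w : Fin N → Fin p, w = fun i : Fin N => P ((fl Γ 1)^[i] x) := ⟨_, rfl⟩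
    have hxw : ∀ i : Fin N, P ((fl Γ 1)^[i] x) = w i := fun i => by rw [hw]
    have hx' := hx
    rw [hG] at hx'
    have hwW : w ∈ W := by
      refine hW2 w ?_
      have h1 : Real.exp (-((N : ℝ) * (1 / 2 + κ / 4))) ≤ LL.cyl μ (fl Γ 1) P N x := hx'.2.1
      have h2 : LL.cyl μ (fl Γ 1) P N x = μ.real {x | ∀ i : Fin N, P ((fl Γ 1)^[i] x) = w i} := by
        rw [hw]
        rfl
      rw [← h2]
      exact h1
    have hwV : w ∈ V := by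
      rw [hV, Finset.mem_filter]
      exact ⟨hwW, x, hx, hxw⟩
    obtain ⟨hcG, hcw⟩ := hc w ⟨x, hx, hxw⟩
    have h1 := hcy N (c w) (by omega)
    have h2 : x ∈ {x | ∀ i : Fin N, P ((fl Γ 1)^[i] x) = P ((fl Γ 1)^[i] (mkX Γ (c w)))} := by
      intro i
      rw [hxw i, hcw i]
    obtain ⟨h, hb, hxh⟩ := h1 h2
    refine ⟨c w, Finset.mem_image_of_mem _ hwV, h, ?_, hxh⟩
    refine ⟨hb.1, hb.2.1, hb.2.2.1, hb.2.2.2.trans ?_⟩
    refine mul_le_mul_of_nonneg_left (Real.exp_le_exp.2 ?_) ha.le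
    linarith
  · intro y hy
    rw [Finset.mem_image] at hy
    obtain ⟨w, hw, rfl⟩ := hy
    rw [hV, Finset.mem_filter] at hw
    obtain ⟨hcG, hcw⟩ := hc w hw.2
    rw [hG] at hcG
    refine le_trans ?_ hcG.2.2
    have hsub : {i : ℕ | i < n ∧ ¬ ∃ z ∈ Wm.image cm, ∃ γ : Γ, bq a a (a * Real.exp (-m)) (z⁻¹ * (γ : SL(2, ℝ)) * (c w * aM (i : ℝ)))} ⊆
        (((Finset.range n).filter (fun i : ℕ => (fl Γ 1)^[i] (mkX Γ (c w)) ∈ B) : Finset ℕ) : Set ℕ) := by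
      intro i hi
      rw [Finset.mem_coe, Finset.mem_filter, Finset.mem_range]
      refine ⟨hi.1, ?_⟩
      by_contra hnB
      apply hi.2
      rw [hBdef] at hnB
      have hJi : J ((fl Γ 1)^[i] (mkX Γ (c w))) ≤ 1 / 2 + 3 * ε := by
        rw [(EZ3_inv hsys.ts hJT i _).1]
        exact hcG.1
      have hcyi : Real.exp (-((m : ℝ) * (5 / 8))) ≤ LL.cyl μ (fl Γ 1) P m ((fl Γ 1)^[i] (mkX Γ (c w))) := by
        by_contra h1
        exact hnB ⟨hJi, not_le.1 h1⟩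
      obtain ⟨v, hv⟩ : ∃ v : Fin m → Fin p, v = fun j : Fin m => P ((fl Γ 1)^[j] ((fl Γ 1)^[i] (mkX Γ (c w)))) := ⟨_, rfl⟩
      have hvW : v ∈ Wm := by
        refine hWm2 v ?_
        have h2 : LL.cyl μ (fl Γ 1) P m ((fl Γ 1)^[i] (mkX Γ (c w))) = μ.real {x | ∀ i : Fin m, P ((fl Γ 1)^[i] x) = v i} := by
          rw [hv]
          rfl
        rw [← h2]
        exact hcyi
      obtain ⟨h, hb, hxh⟩ := hcm v ((fl Γ 1)^[i] (mkX Γ (c w))) (fun j => by rw [hv])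
      rw [hiter] at hxh
      obtain ⟨γ, hγ⟩ := (hmk _ _).1 hxh
      refine ⟨cm v, Finset.mem_image_of_mem _ hvW, γ, ?_⟩
      have h3 : (cm v)⁻¹ * (γ : SL(2, ℝ)) * (c w * aM i) = h := by
        rw [mul_assoc, hγ]
        group
      rw [h3]
      exact hb
    have h9 := Set.ncard_le_ncard hsub (Finset.finite_toSet _)
    rw [Set.ncard_coe_finset] at h9
    have h10 : bad Γ (Wm.image cm) a (m : ℝ) n (c w) ≤ ((Finset.range n).filter (fun i : ℕ => (fl Γ 1)^[i] (mkX Γ (c w)) ∈ B)).card := h9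
    exact_mod_cast h10

end Pool.Agent.HF
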