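import Pool.Agent.helper62.HF.SpecV

/-!
# Row hf:OPL (MP_07c750_an, project HALF): one segment
-/

set_option autoImplicit false

open scoped MatrixGroups ContDiff Topology UpperHalfPlane ComplexConjugate
open UpperHalfPlane MeasureTheory Filter Set

namespace Pool.Agent.HV

open Pool.Agent.RS Pool.Agent.MS

theorem OPL_sq2 (a b : ℂ) : ‖a + b‖ ^ 2 ≤ 2 * ‖a‖ ^ 2 + 2 * ‖b‖ ^ 2 := by
  have h1 := norm_add_le a b
  have h2 : ‖a + b‖ ^ 2 ≤ (‖a‖ + ‖b‖) ^ 2 := pow_le_pow_left₀ (norm_nonneg _) h1 2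
  nlinarith [sq_nonneg (‖a‖ - ‖b‖)]

theorem OPL_card (J : Finset ℤ) (f : ℤ → ℂ) : ‖∑ j ∈ J, f j‖ ^ 2 ≤ (J.card : ℝ) * ∑ j ∈ J, ‖f j‖ ^ 2 := by
  have h1 : ‖∑ j ∈ J, f j‖ ^ 2 ≤ (∑ j ∈ J, ‖f j‖) ^ 2 := pow_le_pow_left₀ (norm_nonneg _) (norm_sum_le _ _) 2
  exact h1.trans sq_sum_le_card_mul_sum_sq

/-- the exponential -/
theorem OPL_exp (j : ℤ) (v : ℝ) (z : ℂ) :
    Complex.exp (-(((Real.pi * j * v / 2 : ℝ) : ℂ) * Complex.I)) * z * Complex.exp (((Real.pi * j * v / 2 : ℝ) : ℂ) * Complex.I) = z := by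
  have h1 : Complex.exp (-(((Real.pi * j * v / 2 : ℝ) : ℂ) * Complex.I)) * Complex.exp (((Real.pi * j * v / 2 : ℝ) : ℂ) * Complex.I) = 1 := by
    rw [← Complex.exp_add, neg_add_cancel, Complex.exp_zero]
  calc _ = (Complex.exp (-(((Real.pi * j * v / 2 : ℝ) : ℂ) * Complex.I)) * Complex.exp (((Real.pi * j * v / 2 : ℝ) : ℂ) * Complex.I)) * z := by ring
    _ = z := by rw [h1, one_mul]

theorem OPL_nexp (j : ℤ) (v : ℝ) : ‖Complex.exp (-(((Real.pi * j * v / 2 : ℝ) : ℂ) * Complex.I))‖ = 1 := by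
  have h1 : -(((Real.pi * j * v / 2 : ℝ) : ℂ) * Complex.I) = ((-(Real.pi * j * v / 2) : ℝ) : ℂ) * Complex.I := by
    push_cast; ring
  rw [h1, Complex.norm_exp_ofReal_mul_I]

theorem OPL_proof (hCLL : CLL_stmt) (hDVF : DVF_stmt) (hLFV : LFV_stmt) (hGLC : GLC_stmt) (hCV1 : CV1_stmt)
    (hFL0 : FL0_stmt) : OPL_stmt := by
  intro Γ χ β α ε K Q r J0 B1 Dp ψ g hΓ hχ hβ hα hε hr hJ0 hQ hB1 hDp hLFI hψ hcount
  obtain ⟨-, hSC, -, hcA, hcN, hcL, -, -, -, -, -, -, hLadd, -⟩ := hGLC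
  have hsc : SecondCountableTopology SL(2, ℝ) := hSC
  set l : ℝ := Real.pi / (4 * ε * r) with hl
  obtain ⟨hSB, -, -, hlin⟩ := hCLL χ β ε hχ hβ hε
  -- continuity
  have hct : ∀ f : ℍ → ℂ, TB (1 / 4) f → Continuous (fun v : ℝ => Wf (pk r f) ψ (g * lM (l * v))) := by
    intro f hf
    have h1 := hFL0.2.1 _ r f hf
    have h2 : Continuous (pk r f) := by
      have h3 := hFL0.1 (1 / 4) f hf
      have h4 := h3.2.2.2.2.2.2
      have h5 : Continuous (fun z : ℍ => ((z.im : ℝ) : ℂ) ^ ((1 / 2 : ℂ) + (r : ℂ) * Complex.I)) := by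
        refine Continuous.cpow (Complex.continuous_ofReal.comp UpperHalfPlane.continuous_im) continuous_const fun z => ?_
        exact Or.inl (by rw [Complex.ofReal_re]; exact z.im_pos)
      exact h4.mul h5
    have h3 : InvG Γ (Wf (pk r f) ψ) := hFL0.2.2 Γ _ ψ h2 h1.2 hψ
    have h4 : Continuous (fun v : ℝ => g * lM (l * v)) :=
      continuous_const.mul (hcL.comp (continuous_const.mul continuous_id))
    exact h3.1.comp h4
  have hTb : ∀ j : ℤ, TB (1 / 4) (pc (bj χ β ε j) α) := fun j => (hCV1.2.2 (1 / 4) α _ hα (hSB j).1).1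
  have hTb1 : ∀ j : ℤ, TB (1 / 4) (pc (b1 χ β ε j) α) := fun j => (hCV1.2.2 (1 / 4) α _ hα (hSB j).2).1
  have hTe : ∀ j : ℤ, TB (1 / 4) (ej χ β α ε j) := fun j => (hDVF χ β α ε r j ψ g hχ hβ hα hε hr hψ.1).1
  have hDer := fun j : ℤ => (hDVF χ β α ε r j ψ g hχ hβ hα hε hr hψ.1).2
  rw [← hl] at hDer
  -- the set of good cells
  classical
  set Jall : Finset ℤ := Finset.Icc (-(J0 : ℤ)) J0 with hJall
  set J : Finset ℤ := Jall.filter (fun j : ℤ => ∃ u ∈ Icc (0 : ℝ) 1, g * lM (l * u) * nM (j * ε) ∈ Dp) with hJ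
  have hJs : J ⊆ Jall := Finset.filter_subset _ _
  have hJabs : ∀ j ∈ J, |j| ≤ (J0 : ℤ) := by
    intro j hj
    have h1 := hJs hj
    rw [hJall, Finset.mem_Icc] at h1
    exact abs_le.2 h1
  have hJc : (J.card : ℝ) ≤ K := by
    refine hcount J fun j hj => ⟨hJabs j hj, ?_⟩
    exact (Finset.mem_filter.1 hj).2
  set Y : Set ℝ := Icc (0 : ℝ) 1 ∩ {v | g * aM (Real.log (4 * ε * r / Real.pi)) * lM v ∈ B1} with hY
  have hYm : MeasurableSet Y := by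
    refine measurableSet_Icc.inter ?_
    have h1 : Continuous (fun v : ℝ => g * aM (Real.log (4 * ε * r / Real.pi)) * lM v) := continuous_const.mul hcL
    exact h1.measurable hB1
  have hYs : Y ⊆ Icc 0 1 := inter_subset_left
  -- the functions `D`, `D'`
  set Dd : ℤ → ℝ → ℂ := fun j v => Complex.exp (-(((Real.pi * j * v / 2 : ℝ) : ℂ) * Complex.I)) * Wf (pk r (pc (bj χ β ε j) α)) ψ (g * lM (l * v)) with hDd
  set D' : ℤ → ℝ → ℂ := fun j v => Complex.exp (-(((Real.pi * j * v / 2 : ℝ) : ℂ) * Complex.I)) * (Complex.I * Wf (pk r (pc (b1 χ β ε j) α)) ψ (g * lM (l * v)) +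
      (l : ℂ) * Wf (pk r (ej χ β α ε j)) ψ (g * lM (l * v))) with hD'
  have hce : ∀ j : ℤ, Continuous (fun v : ℝ => Complex.exp (-(((Real.pi * j * v / 2 : ℝ) : ℂ) * Complex.I))) := by
    intro j
    refine Complex.continuous_exp.comp (Continuous.neg (Continuous.mul ?_ continuous_const))
    exact Complex.continuous_ofReal.comp ((continuous_const.mul continuous_id).div_const _)
  have hD'c : ∀ j, Continuous (D' j) := by
    intro j
    exact (hce j).mul ((continuous_const.mul (hct _ (hTb1 j))).add (continuous_const.mul (hct _ (hTe j))))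
  have hlf := hLFV Y J Q Dd D' hYm hYs hQ (fun a => hLFI (g * aM (Real.log (4 * ε * r / Real.pi))) J a hJc hJabs)
    (fun j v => hDer j v) hD'c
  -- the pieces
  set P : ℤ → ℝ → ℝ := fun j v => ‖Wf (pk r (pc (bj χ β ε j) α)) ψ (g * lM (l * v))‖ ^ 2 with hP
  have hPc : ∀ j, Continuous (P j) := fun j => (hct _ (hTb j)).norm.pow 2
  set I : ℤ → ℝ → ℝ := fun j v => ({g' : SL(2, ℝ) | g' * nM (j * ε) ∉ Dp}.indicator (fun g' => ‖Wf (pk r (pc (bj χ β ε j) α)) ψ g'‖ ^ 2)) (g * lM (l * v)) with hI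
  have hIe : ∀ j, I j = {v : ℝ | g * lM (l * v) * nM (j * ε) ∉ Dp}.indicator (P j) := by
    intro j
    funext v
    by_cases hv : g * lM (l * v) * nM (j * ε) ∈ Dp
    · rw [hI, indicator_of_notMem (by simpa using hv)]
      exact indicator_of_notMem (by simpa using hv) _
    · rw [hI, indicator_of_mem (by simpa using hv)]
      exact indicator_of_mem (by simpa using hv) _
  have hIm : ∀ j : ℤ, MeasurableSet {v : ℝ | g * lM (l * v) * nM (j * ε) ∉ Dp} := by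
    intro j
    have h1 : Continuous (fun v : ℝ => g * lM (l * v) * nM (j * ε)) :=
      (continuous_const.mul (hcL.comp (continuous_const.mul continuous_id))).mul continuous_const
    exact h1.measurable hDp.compl
  have hI0 : ∀ j v, 0 ≤ I j v := by
    intro j v
    rw [hIe]
    exact indicator_nonneg (fun x _ => sq_nonneg _) _
  have hIi : ∀ j, IntegrableOn (I j) (Icc 0 1) := by
    intro j
    rw [hIe]
    exact ((hPc j).continuousOn.integrableOn_Icc).indicator (hIm j)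
  -- pointwise bound
  have hpt : ∀ v ∈ Y, ‖Wf (pk r (pc β α)) ψ (g * lM (l * v))‖ ^ 2 ≤
      2 * ‖∑ j ∈ J, Dd j v * Complex.exp (((Real.pi * j * v / 2 : ℝ) : ℂ) * Complex.I)‖ ^ 2 + 2 * (2 * J0 + 1) * ∑ j ∈ Jall, I j v := by
    intro v hv
    have h1 := hlin J0 α r ψ (g * lM (l * v)) hJ0 hα hψ.1
    rw [← h1, ← Finset.sum_filter_add_sum_filter_not Jall (fun j : ℤ => ∃ u ∈ Icc (0 : ℝ) 1, g * lM (l * u) * nM (j * ε) ∈ Dp)]
    refine (OPL_sq2 _ _).trans ?_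
    have h2 : ∑ j ∈ J, Dd j v * Complex.exp (((Real.pi * j * v / 2 : ℝ) : ℂ) * Complex.I) =
        ∑ j ∈ J, Wf (pk r (pc (bj χ β ε j) α)) ψ (g * lM (l * v)) :=
      Finset.sum_congr rfl fun j _ => OPL_exp j v _
    rw [h2]
    have h3 := OPL_card (Jall.filter (fun j : ℤ => ¬∃ u ∈ Icc (0 : ℝ) 1, g * lM (l * u) * nM (j * ε) ∈ Dp))
      (fun j => Wf (pk r (pc (bj χ β ε j) α)) ψ (g * lM (l * v)))
    have h4 : ((Jall.filter (fun j : ℤ => ¬∃ u ∈ Icc (0 : ℝ) 1, g * lM (l * u) * nM (j * ε) ∈ Dp)).card : ℝ) ≤ 2 * J0 + 1 := by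
      have h5 : (Jall.filter (fun j : ℤ => ¬∃ u ∈ Icc (0 : ℝ) 1, g * lM (l * u) * nM (j * ε) ∈ Dp)).card ≤ Jall.card :=
        Finset.card_le_card (Finset.filter_subset _ _)
      have h6 : Jall.card = 2 * J0 + 1 := by
        rw [hJall, Int.card_Icc]; omega
      rw [h6] at h5
      exact_mod_cast h5
    have h5 : ∑ j ∈ Jall.filter (fun j : ℤ => ¬∃ u ∈ Icc (0 : ℝ) 1, g * lM (l * u) * nM (j * ε) ∈ Dp), ‖Wf (pk r (pc (bj χ β ε j) α)) ψ (g * lM (l * v))‖ ^ 2 ≤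
        ∑ j ∈ Jall, I j v := by
      have h6 : ∑ j ∈ Jall.filter (fun j : ℤ => ¬∃ u ∈ Icc (0 : ℝ) 1, g * lM (l * u) * nM (j * ε) ∈ Dp), ‖Wf (pk r (pc (bj χ β ε j) α)) ψ (g * lM (l * v))‖ ^ 2 =
          ∑ j ∈ Jall.filter (fun j : ℤ => ¬∃ u ∈ Icc (0 : ℝ) 1, g * lM (l * u) * nM (j * ε) ∈ Dp), I j v := by
        refine Finset.sum_congr rfl fun j hj => ?_
        have h7 := (Finset.mem_filter.1 hj).2
        have h8 : g * lM (l * v) * nM (j * ε) ∉ Dp := fun h => h7 ⟨v, hYs hv, h⟩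
        rw [hIe]
        exact (indicator_of_mem (s := {v : ℝ | g * lM (l * v) * nM (j * ε) ∉ Dp}) h8 (P j)).symm
      rw [h6]
      exact Finset.sum_le_sum_of_subset_of_nonneg (Finset.filter_subset _ _) fun j _ _ => hI0 j v
    have h6 : ‖∑ j ∈ Jall.filter (fun j : ℤ => ¬∃ u ∈ Icc (0 : ℝ) 1, g * lM (l * u) * nM (j * ε) ∈ Dp), Wf (pk r (pc (bj χ β ε j) α)) ψ (g * lM (l * v))‖ ^ 2 ≤
        (2 * J0 + 1) * ∑ j ∈ Jall, I j v := by
      refine h3.trans ?_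
      exact mul_le_mul h4 h5 (Finset.sum_nonneg fun j _ => sq_nonneg _) (by positivity)
    linarith
  -- integrate
  have hDc : ∀ j, Continuous (Dd j) := fun j => (hce j).mul (hct _ (hTb j))
  have hSc : Continuous (fun v : ℝ => ‖∑ j ∈ J, Dd j v * Complex.exp (((Real.pi * j * v / 2 : ℝ) : ℂ) * Complex.I)‖ ^ 2) := by
    refine (Continuous.norm ?_).pow 2
    refine continuous_finsetSum _ fun j _ => ?_
    refine (hDc j).mul (Complex.continuous_exp.comp (Continuous.mul ?_ continuous_const))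
    exact Complex.continuous_ofReal.comp ((continuous_const.mul continuous_id).div_const _)
  have hFi : IntegrableOn (fun v : ℝ => ‖Wf (pk r (pc β α)) ψ (g * lM (l * v))‖ ^ 2) Y := by
    have h1 : Continuous (fun v : ℝ => ‖Wf (pk r (pc β α)) ψ (g * lM (l * v))‖ ^ 2) :=
      (hct _ ((hCV1.2.2 (1 / 4) α _ hα hβ).1)).norm.pow 2
    exact h1.continuousOn.integrableOn_Icc.mono_set hYs
  have hSi : IntegrableOn (fun v : ℝ => ‖∑ j ∈ J, Dd j v * Complex.exp (((Real.pi * j * v / 2 : ℝ) : ℂ) * Complex.I)‖ ^ 2) Y :=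
    hSc.continuousOn.integrableOn_Icc.mono_set hYs
  have hIY : ∀ j, IntegrableOn (I j) Y := fun j => (hIi j).mono_set hYs
  have hIs : IntegrableOn (fun v => ∑ j ∈ Jall, I j v) Y := integrable_finsetSum _ fun j _ => hIY j
  have step1 : ∫ v in Y, ‖Wf (pk r (pc β α)) ψ (g * lM (l * v))‖ ^ 2 ≤
      ∫ v in Y, (2 * ‖∑ j ∈ J, Dd j v * Complex.exp (((Real.pi * j * v / 2 : ℝ) : ℂ) * Complex.I)‖ ^ 2 + 2 * (2 * J0 + 1) * ∑ j ∈ Jall, I j v) :=
    setIntegral_mono_on hFi ((hSi.const_mul 2).add (hIs.const_mul _)) hYm hpt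
  have step2 : ∫ v in Y, (2 * ‖∑ j ∈ J, Dd j v * Complex.exp (((Real.pi * j * v / 2 : ℝ) : ℂ) * Complex.I)‖ ^ 2 + 2 * (2 * J0 + 1) * ∑ j ∈ Jall, I j v) =
      2 * (∫ v in Y, ‖∑ j ∈ J, Dd j v * Complex.exp (((Real.pi * j * v / 2 : ℝ) : ℂ) * Complex.I)‖ ^ 2) + 2 * (2 * J0 + 1) * ∑ j ∈ Jall, ∫ v in Y, I j v := by
    rw [integral_add (hSi.const_mul 2) (hIs.const_mul _), integral_const_mul, integral_const_mul, integral_finsetSum _ fun j _ => hIY j]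
  have step3 : ∑ j ∈ Jall, ∫ v in Y, I j v ≤ ∑ j ∈ Jall, ∫ u in (0 : ℝ)..1, I j u := by
    refine Finset.sum_le_sum fun j _ => ?_
    rw [intervalIntegral.integral_of_le zero_le_one, ← integral_Icc_eq_integral_Ioc]
    exact setIntegral_mono_set (hIi j) (Eventually.of_forall fun v => hI0 j v) (HasSubset.Subset.eventuallyLE hYs)
  -- the coefficients
  have hD0 : ∀ j, ‖Dd j 0‖ ^ 2 = ‖Wf (pk r (pc (bj χ β ε j) α)) ψ g‖ ^ 2 := by
    intro j
    have h0 : lM 0 = 1 := by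
      have h1 := hLadd 0 0
      rw [add_zero] at h1
      exact (mul_eq_left.1 h1.symm)
    show ‖Complex.exp (-(((Real.pi * j * (0 : ℝ) / 2 : ℝ) : ℂ) * Complex.I)) * Wf (pk r (pc (bj χ β ε j) α)) ψ (g * lM (l * 0))‖ ^ 2 = _
    rw [norm_mul, OPL_nexp, one_mul, mul_zero, h0, mul_one]
  have hDp' : ∀ j u, ‖D' j u‖ ^ 2 ≤ 2 * ‖Wf (pk r (pc (b1 χ β ε j) α)) ψ (g * lM (l * u))‖ ^ 2 + 2 * l ^ 2 * ‖Wf (pk r (ej χ β α ε j)) ψ (g * lM (l * u))‖ ^ 2 := by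
    intro j u
    rw [hD']
    simp only [norm_mul, OPL_nexp, one_mul]
    refine (OPL_sq2 _ _).trans (le_of_eq ?_)
    rw [norm_mul, norm_mul, Complex.norm_I, one_mul, Complex.norm_real, mul_pow, Real.norm_eq_abs, sq_abs]
    ring
  have hEi : ∀ j, Continuous (fun u : ℝ => 2 * ‖Wf (pk r (pc (b1 χ β ε j) α)) ψ (g * lM (l * u))‖ ^ 2 + 2 * l ^ 2 * ‖Wf (pk r (ej χ β α ε j)) ψ (g * lM (l * u))‖ ^ 2) := by
    intro j
    exact (continuous_const.mul ((hct _ (hTb1 j)).norm.pow 2)).add (continuous_const.mul ((hct _ (hTe j)).norm.pow 2))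
  have hD'i : ∀ j, Continuous (fun u : ℝ => ‖D' j u‖ ^ 2) := fun j => (hD'c j).norm.pow 2
  have step4 : ∑ j ∈ J, ‖Dd j 0‖ ^ 2 + ∫ u in (0 : ℝ)..1, ∑ j ∈ J, ‖D' j u‖ ^ 2 ≤
      ∑ j ∈ Jall, (‖Wf (pk r (pc (bj χ β ε j) α)) ψ g‖ ^ 2 + ∫ u in (0 : ℝ)..1, (2 * ‖Wf (pk r (pc (b1 χ β ε j) α)) ψ (g * lM (l * u))‖ ^ 2 +
          2 * l ^ 2 * ‖Wf (pk r (ej χ β α ε j)) ψ (g * lM (l * u))‖ ^ 2)) := by
    rw [intervalIntegral.integral_finsetSum fun j _ => (hD'i j).intervalIntegrable 0 1, ← Finset.sum_add_distrib]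
    have h1 : ∀ j ∈ J, ‖Dd j 0‖ ^ 2 + ∫ u in (0 : ℝ)..1, ‖D' j u‖ ^ 2 ≤
        ‖Wf (pk r (pc (bj χ β ε j) α)) ψ g‖ ^ 2 + ∫ u in (0 : ℝ)..1, (2 * ‖Wf (pk r (pc (b1 χ β ε j) α)) ψ (g * lM (l * u))‖ ^ 2 +
          2 * l ^ 2 * ‖Wf (pk r (ej χ β α ε j)) ψ (g * lM (l * u))‖ ^ 2) := by
      intro j _
      rw [hD0]
      refine add_le_add le_rfl ?_
      exact intervalIntegral.integral_mono_on zero_le_one ((hD'i j).intervalIntegrable 0 1) ((hEi j).intervalIntegrable 0 1) fun u _ => hDp' j u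
    refine (Finset.sum_le_sum h1).trans ?_
    refine Finset.sum_le_sum_of_subset_of_nonneg hJs fun j _ _ => ?_
    refine add_nonneg (sq_nonneg _) (intervalIntegral.integral_nonneg zero_le_one fun u _ => ?_)
    positivity
  have step5 := mul_le_mul_of_nonneg_left step4 (show (0 : ℝ) ≤ 2 * Q by linarith)
  have step6 := mul_le_mul_of_nonneg_left step3 (show (0 : ℝ) ≤ 2 * (2 * J0 + 1) by positivity)
  refine step1.trans ?_
  rw [step2]
  refine add_le_add ?_ step6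
  calc 2 * (∫ v in Y, ‖∑ j ∈ J, Dd j v * Complex.exp (((Real.pi * j * v / 2 : ℝ) : ℂ) * Complex.I)‖ ^ 2) ≤
      2 * (2 * Q * (∑ j ∈ J, ‖Dd j 0‖ ^ 2 + ∫ u in (0 : ℝ)..1, ∑ j ∈ J, ‖D' j u‖ ^ 2)) := by linarith
    _ ≤ 2 * (2 * Q * ∑ j ∈ Jall, (‖Wf (pk r (pc (bj χ β ε j) α)) ψ g‖ ^ 2 + ∫ u in (0 : ℝ)..1, (2 * ‖Wf (pk r (pc (b1 χ β ε j) α)) ψ (g * lM (l * u))‖ ^ 2 +
          2 * l ^ 2 * ‖Wf (pk r (ej χ β α ε j)) ψ (g * lM (l * u))‖ ^ 2))) := by linarith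
    _ = _ := by ring

end Pool.Agent.HV
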