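import Pool.Agent.helper84.HF.SpecH
import Pool.Agent.helper62.MS.SpecD

/-!
# MP_07c750 (quantum unique ergodicity, weight 10), project HALF: block W (words), rows `hf:X`

The part of the measure over a set of area zero is covered by `e^((1/2+κ)n)` boxes of length `n`, and the centres `y` of these boxes are good at most times: for all but `η n` of the times `i < n` the point `y a_i` is in one of at most `e^(5m/8)` boxes of length `m`
(`m` fixed, `Am` fixed, before `κ` and `n`). Rules as in `Pool/Agent/helper62/MS/SpecA.lean`, namespace `Pool.Agent.HF`.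
-/

open scoped MatrixGroups ContDiff Topology UpperHalfPlane ComplexConjugate
open UpperHalfPlane MeasureTheory Filter Set

set_option autoImplicit false

namespace Pool.Agent.HF

open Pool.Agent.RS
open Pool.Agent.MS (bq)
open Pool.Agent.EN (XG MG mkX mkM fl pr)

/-- **Row CYS** (CYB for every lift of every point of the cylinder; short; the same proof as helper68/MS/CYB.lean; from EN.A_XFL, EN.A_XLF). -/
def CYS_stmt : Prop := ∀ (Γ : Subgroup SL(2, ℝ)) (a : ℝ), QU.SurfaceGroup Γ → 0 < a → ∃ δ : ℝ, 0 < δ ∧ ∀ (p : ℕ) (P : XG Γ → Fin p), Measurable P →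
  (∀ i, (P ⁻¹' {i}).Nonempty → ∃ x, P ⁻¹' {i} ⊆ EN.Ux Γ δ x) → ∀ (n : ℕ) (g : SL(2, ℝ)), 1 ≤ n →
    {x | ∀ i : Fin n, P ((fl Γ 1)^[i] x) = P ((fl Γ 1)^[i] (mkX Γ g))} ⊆ {x | ∃ h : SL(2, ℝ), bq a a (a * Real.exp (-n)) h ∧ x = mkX Γ (g * h)}

open Classical in
/-- **Row MRK** (Markov; short; pure). `∫ #{i < n | T^i x ∈ B} = n μ(B)`. -/
def MRK_stmt : Prop := ∀ (X : Type) [MeasurableSpace X] (μ : Measure X) (T : X → X) (B : Set X) (η : ℝ) (n : ℕ), IsProbabilityMeasure μ → MeasurePreserving T μ μ → MeasurableSet B → 0 < η →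
  μ.real {x | η * n < (((Finset.range n).filter (fun i => T^[i] x ∈ B)).card : ℝ)} ≤ μ.real B / η

open Classical in
/-- **Row EZ3** (medium; from LL.LOC, MS.SML, MS.NC2, CYS, MRK, EN.PAR, EN.A_XFL, EN.A_XTX, EN.A_XNB; compare helper30/MS/EZ2.lean). `P` with small cells (CYS, PAR). (1) `ε ≤ 1/64` small, `J` from LOC, `κ₁ = 5/64`: for large `k`, `m = 2k+1 ≥ m0`, SML (and the invariance of `J` and `μ`): `B = {J ≤ 1/2 + 3ε, cyl m < e^(-5m/8)}` has measure `≤ 3ε/κ₁`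
(`1/2 + 3ε + κ₁ ≤ 5/8`), so `≤ η δ/4`. `W_m` = the `m`-words with measure `≥ e^(-5m/8)`: at most `e^(5m/8)`; for each of them with a nonempty cylinder choose a point and a lift: `Am`. (2) Given `κ > 0`: `ε'`, `J'` from LOC as in EZ2; for large `n` (`N = 2k+1 ∈ {n, n+1}`): the set `G` of the `x` with `J x ≤ 1/2 + 3ε`, `J' x ≤ 1/2 + 3ε'`,
`cyl N x ≥ e^(-N(1/2 + κ/2))` and `#{i < n | T^i x ∈ B} ≤ η n` has measure `≥ m(E) - δ` (NC2 for `J` and `J'`; SML; MRK). For each heavy `N`-word whose cylinder meets `G` choose a point `mkX y` in `G`: `A`. CYS: the cylinder is in the box of `y`. For `x = mkX y ∈ G` and a time `i < n` with `T^i x ∉ B`: `J (T^i x) = J x ≤ 1/2 + 3ε`, so the `m`-word of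
`T^i x = mkX (y a_i)` is in `W_m` and `mkX (y a_i) = mkX (z h)`, `z ∈ Am`: `z h = γ y a_i`. -/
def EZ3_stmt : Prop := ∀ (Γ : Subgroup SL(2, ℝ)) (μ : Measure (XG Γ)) (E : Set (MG Γ)), QU.SurfaceGroup Γ → IsProbabilityMeasure μ → (∀ t, μ.map (fl Γ t) = μ) → MeasurableSet E →
  LL.Small Γ 1 E → ∀ (a η δ : ℝ) (m0 : ℕ), 0 < a → 0 < η → 0 < δ → ∃ (m : ℕ) (Am : Finset SL(2, ℝ)), m0 ≤ m ∧ (Am.card : ℝ) ≤ Real.exp (5 / 8 * m) ∧
    ∀ κ : ℝ, 0 < κ → ∃ n0 : ℕ, ∀ n : ℕ, n0 ≤ n → ∃ A : Finset SL(2, ℝ), (A.card : ℝ) ≤ Real.exp ((1 / 2 + κ) * n) ∧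
      μ.real (pr Γ ⁻¹' E) - δ ≤ μ.real {x | ∃ y ∈ A, ∃ h : SL(2, ℝ), bq a a (a * Real.exp (-n)) h ∧ x = mkX Γ (y * h)} ∧
      ∀ y ∈ A, (((Finset.range n).filter (fun i : ℕ => ¬ ∃ z ∈ Am, ∃ γ : Γ, bq a a (a * Real.exp (-m)) (z⁻¹ * (γ : SL(2, ℝ)) * (y * aM i)))).card : ℝ) ≤ η * n

end Pool.Agent.HF
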